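import Pool.Agent.Run7.h943.FP.IEXa

/-!
# Project FPL (helper943), piece INNF (helper382): the inner half
-/

set_option autoImplicit false
open MeasureTheory ProbabilityTheory Filter Set
open scoped ENNReal Pointwise Topology

namespace Run7.h382.FP
open Pool.Agent.N662.FP Run7.h943.FP Run7.h943.FP.IEX

theorem inv_le_exp {x : ℝ} (h0 : 0 ≤ x) (h1 : x ≤ 1 / 2) : 1 / (1 - x) ≤ Real.exp (2 * x) := by
  have h2 : 1 / (1 - x) ≤ 1 + 2 * x := by
    rw [div_le_iff₀ (by linarith)]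
    nlinarith
  exact h2.trans (by linarith [Real.add_one_le_exp (2 * x)])

theorem t_INNF (hGEO : Run7.h943.FP.S_GEO) (hPMU : S_PMU) (hCMD : S_CMD) (hEXI : S_EXI) (hIEX : S_IEX) : S_INNF := by
  intro Ω _ _ X hX μ hG y m hM κ A d hκ1 hκ2 hA hd hone
  have hm := hM.pos
  -- the constant of the norm
  obtain ⟨Cm, hC0, hC⟩ : ∃ Cm : ℝ, 0 ≤ Cm ∧ ∀ x, μ x ≤ Cm * eu x := by
    obtain ⟨c, C, hc, hC, h⟩ := cNORM μ hG.norm
    refine ⟨C, hC.le, fun x => (h x).2.trans ?_⟩
    apply mul_le_mul_of_nonneg_left _ hC.le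
    obtain ⟨-, -, -, -, -, h6⟩ := hGEO y hM.unit
    obtain ⟨-, -, h8, h9, -⟩ := h6 x
    exact max_le h8 h9
  set ρ : ℝ := m / 200 with hρ
  have hρ0 : 0 < ρ := by positivity
  -- the eventual inequalities
  have E1 := hIEX Ω X hX μ hG y m hM κ A d hκ1 hκ2 hA hd hone (1 / 10) (by norm_num)
  have E2 := ev_pow 0 (1 / 5) ((2 * m + 2 * Cm) / (ρ / 2)) (by norm_num)
  have E3 := ev_pow 0 (1 / 5) 8 (by norm_num)
  set KK : ℝ := 2 * (1 + 1 / d) * A * (1 + 3 * m + 2 * Cm) ^ (1 - κ) / (ρ / 2) with hKK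
  have hKK0 : 0 < KK := by positivity
  have E4 := ev_pow (1 - κ) (1 / 5) (17 * (Real.exp 680 * KK)) (by linarith)
  obtain ⟨n, h1, h2, h3, h4, hn⟩ := (E1.and (E2.and (E3.and (E4.and (eventually_ge_atTop 2))))).exists
  rw [Real.rpow_zero, mul_one] at h2 h3
  have hn2 : (2 : ℝ) ≤ n := by exact_mod_cast hn
  have hn0 : (0 : ℝ) < n := by linarith
  set L : ℝ := (n : ℝ) ^ (1 / 5 : ℝ) with hL
  set w : ℝ := (n : ℝ) ^ (3 / 5 : ℝ) with hw
  have hL0 : 0 < L := by positivity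
  have hw1 : 1 ≤ w := Real.one_le_rpow (by linarith) (by norm_num)
  set δ : ℝ := (n : ℝ) ^ (-(4 / 5) : ℝ) with hδ
  have hδ0 : 0 < δ := by positivity
  have hδn : δ * n = L := by
    rw [hδ, hL]
    nth_rewrite 2 [← Real.rpow_one (n : ℝ)]
    rw [← Real.rpow_add hn0]
    norm_num
  have hδ2 : δ ^ 2 * (n * w) = 1 := by
    rw [hδ, hw, ← Real.rpow_natCast, ← Real.rpow_mul hn0.le]
    nth_rewrite 2 [← Real.rpow_one (n : ℝ)]
    rw [← Real.rpow_add hn0, ← Real.rpow_add hn0]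
    norm_num
  have hδ3 : δ ^ 2 ≤ 1 / 2 := by
    have h5 : (2 : ℝ) ≤ n * w := by nlinarith
    nlinarith [sq_nonneg δ]
  have hδ1 : δ < 1 := by nlinarith
  -- the point
  set u : ℤ × ℤ := (round (n * y.1), round (n * y.2)) with hu
  have hu1 : |(u.1 : ℝ) - n * y.1| ≤ 1 := by
    have := abs_sub_round ((n : ℝ) * y.1)
    rw [abs_sub_comm] at this
    exact this.trans (by norm_num)
  have hu2 : |(u.2 : ℝ) - n * y.2| ≤ 1 := by
    have := abs_sub_round ((n : ℝ) * y.2)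
    rw [abs_sub_comm] at this
    exact this.trans (by norm_num)
  obtain ⟨hu3, hu4⟩ := near hM.unit (n : ℝ) 0 u (by rw [zero_mul, sub_zero]; exact hu1)
    (by rw [zero_mul, add_zero]; exact hu2)
  rw [sub_zero] at hu4
  rw [abs_le] at hu3
  have hμ1 : μ (em u) ≤ m * n + (2 * m + 2 * Cm) := by
    refine (mu_le μ y m Cm hM hC _).trans ?_
    have e1 : |al y (em u)| ≤ n + 2 := by
      rw [abs_le]; constructor <;> linarith
    have e2 := mul_le_mul_of_nonneg_left e1 hm.le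
    have e3 := mul_le_mul_of_nonneg_left hu4 hC0
    nlinarith
  have hμ2 : m * (n - 2) ≤ μ (em u) := by
    refine le_trans ?_ (hM.ge _)
    apply mul_le_mul_of_nonneg_left _ hm.le
    obtain ⟨-, -, -, -, -, h6⟩ := hGEO y hM.unit
    have h7 := (h6 (em u)).1
    have h8 := le_abs_self (al y (em u))
    linarith
  have hμ0 : 0 ≤ μ (em u) := apply_nonneg μ _
  set t : ℝ := m * n + ρ * L with ht
  have ht1 : μ (em u) + ρ / 2 * L ≤ t := by
    have h5 : 2 * m + 2 * Cm ≤ ρ / 2 * L := by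
      rw [div_le_iff₀ (by positivity)] at h2
      linarith
    rw [ht]
    linarith
  set K := tube y (8 * n) w with hK
  set F := edg K with hF
  obtain ⟨g1, -, -, -, -, -⟩ := hGEO y hM.unit
  obtain ⟨k1, k2, -, k4, k5, -⟩ := g1 (8 * n) w (by linarith)
  -- the cost of the change of measure
  have hcard : ((F.card : ℕ) : ℝ) * δ ^ 2 ≤ 340 := by
    have h5 : ((F.card : ℕ) : ℝ) ≤ 340 * (n * w) := by
      refine k2.trans ?_
      push_cast
      nlinarith [mul_nonneg (by linarith : (0 : ℝ) ≤ n - 1) (by linarith : (0 : ℝ) ≤ w - 1)]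
    calc ((F.card : ℕ) : ℝ) * δ ^ 2 ≤ 340 * (n * w) * δ ^ 2 := by
          apply mul_le_mul_of_nonneg_right h5 (sq_nonneg _)
      _ = 340 * (δ ^ 2 * (n * w)) := by ring
      _ = 340 := by rw [hδ2, mul_one]
  have hcost : (1 / ((1 + δ) * (2 - (1 + δ)))) ^ F.card ≤ Real.exp 680 := by
    have e1 : (1 + δ) * (2 - (1 + δ)) = 1 - δ ^ 2 := by ring
    rw [e1]
    calc (1 / (1 - δ ^ 2)) ^ F.card ≤ (Real.exp (2 * δ ^ 2)) ^ F.card := by
          apply pow_le_pow_left₀ _ (inv_le_exp (sq_nonneg _) hδ3)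
          apply div_nonneg zero_le_one
          linarith
      _ = Real.exp (F.card * (2 * δ ^ 2)) := by rw [← Real.exp_nat_mul]
      _ ≤ Real.exp 680 := by
          apply Real.exp_le_exp.2
          linarith
  -- the event
  set N : Set Ω := {ω | ¬ ∀ e, 0 ≤ env X ω e} with hN
  have pN : (volume : Measure Ω).real N = 0 := by
    have := cAE Ω X hX
    rw [ae_iff] at this
    rw [measureReal_def, this, ENNReal.toReal_zero]
  have p1 := hPMU Ω _ μ hG u
  have p2 := h1 u hu1 hu2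
  have hsub : {ω | μ (em u) ≤ D (env X ω) 0 u} ⊆
      {ω | t ≤ D (sc F (1 + δ) (env X ω)) 0 u} ∪ ({ω | ∃ z ∈ bd K,
        D (env X ω) 0 z + D (env X ω) z u < m * n + m / 200 * (n : ℝ) ^ (1 / 5 : ℝ)} ∪ N) := by
    intro ω hω
    by_contra hcon
    rw [Set.mem_union, Set.mem_union, not_or, not_or] at hcon
    obtain ⟨c1, c2, c3⟩ := hcon
    have c3' : ∀ e, 0 ≤ env X ω e := by
      by_contra h
      exact c3 h
    apply c1
    have h5 := hEXI (env X ω) c3' K F (1 + δ) t u (by linarith) k1 k4 (by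
      intro a ha z hz haz
      by_contra h6
      exact c2 ⟨z, k5 a ha z hz haz, not_le.1 h6⟩)
    have h6 : t ≤ (1 + δ) * D (env X ω) 0 u := by
      have h7 : m * (n - 2) ≤ D (env X ω) 0 u := hμ2.trans hω
      have h8 : (1 + δ) * (m * (n - 2)) ≤ (1 + δ) * D (env X ω) 0 u :=
        mul_le_mul_of_nonneg_left h7 (by linarith)
      refine le_trans ?_ h8
      have e1 : (1 + δ) * (m * (n - 2)) = m * n + m * (δ * n) - 2 * m - 2 * (m * δ) := by ring
      rw [e1, hδn, ht, hρ]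
      nlinarith
    show t ≤ D (sc F (1 + δ) (env X ω)) 0 u
    exact (le_min h6 le_rfl).trans h5
  have p3 : (1 : ℝ) / 4 ≤ (volume : Measure Ω).real {ω | t ≤ D (sc F (1 + δ) (env X ω)) 0 u} := by
    have h5 := (measureReal_mono (μ := (volume : Measure Ω)) hsub (measure_ne_top _ _)).trans (measureReal_union_le _ _)
    have h6 := measureReal_union_le (μ := (volume : Measure Ω)) {ω | ∃ z ∈ bd K,
        D (env X ω) 0 z + D (env X ω) z u < m * n + m / 200 * (n : ℝ) ^ (1 / 5 : ℝ)} N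
    have h7 : (0.36 : ℝ) ≤ Real.exp (-1) := by
      have := Real.exp_neg_one_gt_d9
      linarith
    linarith
  have p4 := (hCMD Ω X hX F (1 + δ) (by linarith) (by linarith) u t).1
  have p5 : (1 : ℝ) / 16 ≤ Real.exp 680 * (volume : Measure Ω).real {ω | t ≤ D (env X ω) 0 u} := by
    have h5 : ((1 : ℝ) / 4) ^ 2 ≤ ((volume : Measure Ω).real {ω | t ≤ D (sc F (1 + δ) (env X ω)) 0 u}) ^ 2 :=
      pow_le_pow_left₀ (by norm_num) p3 2
    have h6 : (1 / ((1 + δ) * (2 - (1 + δ)))) ^ F.card * (volume : Measure Ω).real {ω | t ≤ D (env X ω) 0 u} ≤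
        Real.exp 680 * (volume : Measure Ω).real {ω | t ≤ D (env X ω) 0 u} :=
      mul_le_mul_of_nonneg_right hcost measureReal_nonneg
    linarith
  -- Markov
  have p6 : (volume : Measure Ω).real {ω | t ≤ D (env X ω) 0 u} ≤ KK * (n : ℝ) ^ (1 - κ) / L := by
    have h5 : 0 < ρ / 2 * L := by positivity
    have h6 := mk (fun ω => D (env X ω) 0 u) (hG.int u) (μ (em u)) (ρ / 2 * L) h5
    have h7 := (hG.one u (A * (1 + μ (em u)) ^ (1 - κ)) d (by positivity) hd (hone u)).2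
    refine le_trans (measureReal_mono (μ := (volume : Measure Ω))
      (s₂ := {ω | ρ / 2 * L ≤ |D (env X ω) 0 u - μ (em u)|}) ?_ (measure_ne_top _ _)) (h6.trans ?_)
    · intro ω hω
      have hω' : t ≤ D (env X ω) 0 u := hω
      show ρ / 2 * L ≤ |D (env X ω) 0 u - μ (em u)|
      have := le_abs_self (D (env X ω) 0 u - μ (em u))
      linarith
    · rw [div_le_iff₀ h5]
      refine h7.trans ?_
      have h8 : (1 + μ (em u)) ^ (1 - κ) ≤ (1 + 3 * m + 2 * Cm) ^ (1 - κ) * (n : ℝ) ^ (1 - κ) := by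
        rw [← Real.mul_rpow (by positivity) hn0.le]
        apply Real.rpow_le_rpow (by linarith) _ (by linarith)
        nlinarith [mul_nonneg hm.le (by linarith : (0 : ℝ) ≤ n - 2), mul_nonneg hC0 (by linarith : (0 : ℝ) ≤ n - 2)]
      have h9 : 2 * (1 + 1 / d) * (A * (1 + μ (em u)) ^ (1 - κ)) ≤
          2 * (1 + 1 / d) * (A * ((1 + 3 * m + 2 * Cm) ^ (1 - κ) * (n : ℝ) ^ (1 - κ))) := by
        apply mul_le_mul_of_nonneg_left _ (by positivity)
        exact mul_le_mul_of_nonneg_left h8 hA.le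
      refine h9.trans (le_of_eq ?_)
      rw [hKK]
      field_simp
  have p7 : KK * (n : ℝ) ^ (1 - κ) / L ≤ 1 / (17 * Real.exp 680) := by
    rw [div_le_div_iff₀ hL0 (by positivity)]
    linarith
  have p8 : Real.exp 680 * (1 / (17 * Real.exp 680)) = 1 / 17 := by
    have := (Real.exp_pos 680).ne'
    field_simp
  have p9 := mul_le_mul_of_nonneg_left (p6.trans p7) (Real.exp_pos 680).le
  rw [p8] at p9
  linarith

end Run7.h382.FP
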